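import Pool.Agent.Run7.h929.NL.Bas

/-!
# Project NL: the piece ADD
-/

set_option autoImplicit false

namespace Run7.h929.NL

open Finset Filter Topology Pool.Agent.TH91.RF Pool.Agent.TH91.NB Pool.Agent.TH91.LG Run7.h664.NL

variable {N d : ℕ}

section add

variable (C : Core N) (P : Fin d → Polynomial ℤ) (χ : GG C P →* Circle)

open Classical in
/-- the character in exponential coordinates -/
noncomputable def fC (x : AF N d) : Circle := if h : x ∈ hh C P then χ (eG C P x h) else 1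

theorem fC_eq {x : AF N d} (h : x ∈ hh C P) : fC C P χ x = χ (eG C P x h) := by
  unfold fC
  rw [dif_pos h]

/-- products of exponentials -/
theorem eG_mul_of (hk : ∀ x ∈ hh C P, ∀ p, x p ∈ C.k) {M : ℕ}
    (hF : ∀ x ∈ hh C P, x ∈ (wtF N d M).F 1) {x y z : AF N d} (hx : x ∈ hh C P)
    (hy : y ∈ hh C P) (hz : z ∈ hh C P)
    (h : IsNilpotent.exp x * IsNilpotent.exp y = IsNilpotent.exp z) :
    eG C P x hx * eG C P y hy = eG C P z hz := by
  apply Subtype.ext
  apply BG.ext
  · funext p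
    change E (x p) * E (y (p.1 + 0, p.2)) = E (z p)
    have e : (p.1 + 0, p.2) = p := by rw [add_zero]
    rw [e]
    refine E_mul_of (C.sup _ (hk x hx p)) (C.sup _ (hk y hy p)) (C.sup _ (hk z hz p)) ?_
    rw [← exp_apply ((wtF N d M).nilp (hF x hx)), ← exp_apply ((wtF N d M).nilp (hF y hy)),
      ← exp_apply ((wtF N d M).nilp (hF z hz)), ← h]
    rfl
  · change (0 : ℤ) + 0 = 0
    rw [add_zero]

theorem fC_nsmul (hk : ∀ x ∈ hh C P, ∀ p, x p ∈ C.k) {M : ℕ}
    (hF : ∀ x ∈ hh C P, x ∈ (wtF N d M).F 1) {x : AF N d} (hx : x ∈ hh C P) (n : ℕ) :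
    fC C P χ ((n : ℝ) • x) = fC C P χ x ^ n := by
  induction n with
  | zero =>
    rw [Nat.cast_zero, zero_smul, pow_zero, fC_eq C P χ (Submodule.zero_mem _)]
    have : eG C P (0 : AF N d) (Submodule.zero_mem _) = 1 := by
      apply Subtype.ext
      apply BG.ext
      · funext p
        exact E_zero
      · rfl
    rw [this, map_one]
  | succ n ih =>
    have h1 : ((n : ℝ) • x) ∈ hh C P := Submodule.smul_mem _ _ hx
    have h2 : (((n + 1 : ℕ) : ℝ) • x) ∈ hh C P := Submodule.smul_mem _ _ hx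
    have h3 : ((n + 1 : ℕ) : ℝ) • x = (n : ℝ) • x + x := by
      rw [Nat.cast_succ, add_smul, one_smul]
    rw [pow_succ, ← ih, fC_eq C P χ h1, fC_eq C P χ hx, fC_eq C P χ h2, ← map_mul]
    congr 1
    symm
    refine eG_mul_of C P hk hF h1 hx h2 ?_
    rw [h3]
    exact (IsNilpotent.exp_add_of_commute ((Commute.refl x).smul_left _)
      ((wtF N d M).nilp (hF _ h1)) ((wtF N d M).nilp (hF _ hx))).symm

theorem continuous_fC_path (hχ : Continuous χ) (hk : ∀ x ∈ hh C P, ∀ p, x p ∈ C.k)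
    {T : Type*} [TopologicalSpace T] {g : T → AF N d} (hg : ∀ t, g t ∈ hh C P)
    (hc : ∀ p, Continuous fun t => g t p) : Continuous fun t => fC C P χ (g t) := by
  have e : (fun t => fC C P χ (g t)) = fun t => χ (eG C P (g t) (hg t)) := by
    funext t
    exact fC_eq C P χ (hg t)
  rw [e]
  refine hχ.comp ?_
  refine Continuous.subtype_mk ?_ _
  refine BG.continuous_mk (fun p => ?_) continuous_const
  exact E_cont (hc p) fun t => C.sup _ (hk _ (hg t) p)

theorem fC_add (hχ : Continuous χ) (hk : ∀ x ∈ hh C P, ∀ p, x p ∈ C.k) {M : ℕ}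
    (hF : ∀ x ∈ hh C P, x ∈ (wtF N d M).F 1) {x y : AF N d} (hx : x ∈ hh C P)
    (hy : y ∈ hh C P) : fC C P χ (x + y) = fC C P χ x * fC C P χ y := by
  obtain ⟨Z, h0, h1, hZF, hs, hI⟩ := (wtF N d M).bch (hF x hx) (hF y hy)
  have hZ2 : ∀ n, 2 ≤ n → Z n ∈ hh C P := by
    refine hI (hh C P).toAddSubgroup (hh C P).toAddSubgroup hx hy le_rfl ?_ ?_
    · exact fun u hu v hv => hh_rat C P (hh_br C P hu hv) _
    · exact hh_rat C P (hh_br C P hx hy) _
  have hZ : ∀ n, Z n ∈ hh C P := by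
    intro n
    rcases Nat.lt_or_ge n 2 with h | h
    · interval_cases n
      · rw [h0]; exact Submodule.zero_mem _
      · rw [h1]; exact Submodule.add_mem _ hx hy
    · exact hZ2 n h
  set N' := M * N + 1 with hN'
  set g : ℝ → AF N d := fun t => ∑ n ∈ range N', t ^ n • Z (n + 1) with hg
  have hgm : ∀ t, g t ∈ hh C P := fun t =>
    Submodule.sum_mem _ fun n _ => Submodule.smul_mem _ _ (hZ (n + 1))
  have hgc : Continuous fun t => fC C P χ (g t) := by
    refine continuous_fC_path C P χ hχ hk hgm fun p => ?_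
    have e : (fun t => g t p) = fun t => ∑ n ∈ range N', t ^ n • Z (n + 1) p := by
      funext t
      rw [hg]
      simp only [Finset.sum_apply, Pi.smul_apply]
    rw [e]
    exact continuous_finsetSum _ fun n _ => (continuous_pow n).smul continuous_const
  have hg0 : g 0 = x + y := by
    rw [hg]
    simp only
    rw [Finset.sum_range_succ', pow_zero, one_smul, zero_add, h1, Finset.sum_eq_zero, zero_add]
    intro n _
    rw [zero_pow (by omega), zero_smul]
  have hval : ∀ n : ℕ, fC C P χ (g (1 / ((n : ℝ) + 1))) = fC C P χ x * fC C P χ y := by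
    intro n
    set s : ℚ := 1 / ((n : ℚ) + 1) with hsd
    have hsr : ((s : ℚ) : ℝ) = 1 / ((n : ℝ) + 1) := by
      rw [hsd]; push_cast; rfl
    have hn0 : ((n : ℝ) + 1) ≠ 0 := by positivity
    have hsm : ∀ w : AF N d, (s • w : AF N d) = (1 / ((n : ℝ) + 1)) • w := by
      intro w
      rw [← hsr, Rat.cast_smul_eq_qsmul]
    have hW : (∑ m ∈ range (N' + 1), s ^ m • Z m) =
        (1 / ((n : ℝ) + 1)) • g (1 / ((n : ℝ) + 1)) := by
      rw [Finset.sum_range_succ', h0, smul_zero, add_zero, hg]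
      simp only
      rw [Finset.smul_sum]
      refine Finset.sum_congr rfl fun m _ => ?_
      rw [smul_smul, ← pow_succ', ← hsr, ← Rat.cast_pow, Rat.cast_smul_eq_qsmul]
    have h2 := hs s
    rw [hW, hsm, hsm] at h2
    have hx' : (1 / ((n : ℝ) + 1)) • x ∈ hh C P := Submodule.smul_mem _ _ hx
    have hy' : (1 / ((n : ℝ) + 1)) • y ∈ hh C P := Submodule.smul_mem _ _ hy
    have hg' : (1 / ((n : ℝ) + 1)) • g (1 / ((n : ℝ) + 1)) ∈ hh C P :=
      Submodule.smul_mem _ _ (hgm _)
    have h3 := eG_mul_of C P hk hF hx' hy' hg' h2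
    have h4 : fC C P χ ((1 / ((n : ℝ) + 1)) • x) * fC C P χ ((1 / ((n : ℝ) + 1)) • y) =
        fC C P χ ((1 / ((n : ℝ) + 1)) • g (1 / ((n : ℝ) + 1))) := by
      rw [fC_eq C P χ hx', fC_eq C P χ hy', fC_eq C P χ hg', ← h3, map_mul]
    have h5 : ∀ w ∈ hh C P, fC C P χ w = fC C P χ ((1 / ((n : ℝ) + 1)) • w) ^ (n + 1) := by
      intro w hw
      rw [← fC_nsmul C P χ hk hF (Submodule.smul_mem _ _ hw), smul_smul]
      congr 1
      rw [Nat.cast_succ, mul_one_div, div_self hn0, one_smul]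
    rw [h5 _ (hgm _), h5 x hx, h5 y hy, ← h4, mul_pow]
  have hlim : Tendsto (fun n : ℕ => fC C P χ (g (1 / ((n : ℝ) + 1)))) atTop
      (𝓝 (fC C P χ (g 0))) :=
    (hgc.tendsto 0).comp tendsto_one_div_add_atTop_nhds_zero_nat
  rw [hg0] at hlim
  have hlim2 : Tendsto (fun n : ℕ => fC C P χ (g (1 / ((n : ℝ) + 1)))) atTop
      (𝓝 (fC C P χ x * fC C P χ y)) := by
    rw [show (fun n : ℕ => fC C P χ (g (1 / ((n : ℝ) + 1)))) =
      fun _ => fC C P χ x * fC C P χ y from funext hval]
    exact tendsto_const_nhds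
  exact tendsto_nhds_unique hlim hlim2

theorem fC_zero : fC C P χ 0 = 1 := by
  rw [fC_eq C P χ (Submodule.zero_mem _)]
  have : eG C P (0 : AF N d) (Submodule.zero_mem _) = 1 := by
    apply Subtype.ext
    apply BG.ext
    · funext p
      exact E_zero
    · rfl
  rw [this, map_one]

theorem fC_neg (hχ : Continuous χ) (hk : ∀ x ∈ hh C P, ∀ p, x p ∈ C.k) {M : ℕ}
    (hF : ∀ x ∈ hh C P, x ∈ (wtF N d M).F 1) {x : AF N d} (hx : x ∈ hh C P) :
    fC C P χ (-x) = (fC C P χ x)⁻¹ := by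
  have h := fC_add C P χ hχ hk hF hx (Submodule.neg_mem _ hx)
  rw [add_neg_cancel, fC_zero] at h
  exact eq_inv_of_mul_eq_one_right h.symm

theorem adr_mem {x w : AF N d} (hx : x ∈ hh C P) (hw : w ∈ hh C P) (k : ℕ) :
    (adr (-w))^[k] x ∈ hh C P := by
  induction k with
  | zero => exact hx
  | succ k ih =>
    rw [Function.iterate_succ_apply']
    have h := hh_br C P hw ih
    have e : adr (-w) ((adr (-w))^[k] x) = w * ((adr (-w))^[k] x) - ((adr (-w))^[k] x) * w := by
      unfold adr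
      noncomm_ring
    rw [e]
    exact h

theorem fC_br (hχ : Continuous χ) (hk : ∀ x ∈ hh C P, ∀ p, x p ∈ C.k) {M : ℕ}
    (hF : ∀ x ∈ hh C P, x ∈ (wtF N d M).F 1) {w x : AF N d} (hw : w ∈ hh C P)
    (hx : x ∈ hh C P) : fC C P χ (w * x - x * w) = 1 := by
  set N' := M * N + 1 with hN'
  have hLat : LieLat (wtF N d M) (hh C P).toAddSubgroup :=
    lat_of _ _ hF fun x hx y hy => hh_br C P hx hy
  -- the kernel
  let K : AddSubgroup (AF N d) :=
    { carrier := {y | y ∈ hh C P ∧ fC C P χ y = 1}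
      add_mem' := by
        rintro a b ⟨ha, ha1⟩ ⟨hb, hb1⟩
        refine ⟨Submodule.add_mem _ ha hb, ?_⟩
        rw [fC_add C P χ hχ hk hF ha hb, ha1, hb1, one_mul]
      zero_mem' := ⟨Submodule.zero_mem _, fC_zero C P χ⟩
      neg_mem' := by
        rintro a ⟨ha, ha1⟩
        refine ⟨Submodule.neg_mem _ ha, ?_⟩
        rw [fC_neg C P χ hχ hk hF ha, ha1, inv_one] }
  have key : ∀ u ∈ hh C P, vdm N' • (w * u - u * w) ∈ K := by
    intro u hu
    set z : ℕ → AF N d := fun n => if n = 0 then 0 else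
      ((n.factorial : ℚ))⁻¹ • (adr (-w))^[n] u with hz
    have hzm : ∀ n, z n ∈ hh C P := by
      intro n
      rw [hz]
      simp only
      split_ifs
      · exact Submodule.zero_mem _
      · exact hh_rat C P (adr_mem C P hu hw n) _
    have h1 : vdm N' • z 1 ∈ K := by
      refine vdm_mem N' K z (fun s => ?_) 1 (by omega)
      have hsw : ((s : ℚ) • w) ∈ hh C P := hh_rat C P hw _
      have h2 := hLat.exp_conj_eq (w := (s : ℚ) • w) (x := u) hsw hu
      have h3 : ∑ k ∈ range (N' + 1), ((k.factorial : ℚ))⁻¹ • (adr (-((s : ℚ) • w)))^[k] u =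
          u + ∑ n ∈ range (N' + 1), (((s ^ n : ℕ) : ℤ)) • z n := by
        have h4 : ∀ k, ((k.factorial : ℚ))⁻¹ • (adr (-((s : ℚ) • w)))^[k] u =
            (if k = 0 then u else 0) + (((s ^ k : ℕ) : ℤ)) • z k := by
          intro k
          rw [hz]
          simp only
          split_ifs with h0
          · subst h0
            simp
          · rw [zero_add, ← smul_neg, adr_smul_iter, smul_comm, natCast_zsmul,
              ← Nat.cast_smul_eq_nsmul ℚ, Nat.cast_pow]
        rw [Finset.sum_congr rfl fun k _ => h4 k, Finset.sum_add_distrib]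
        congr 1
        rw [Finset.sum_ite_eq' (range (N' + 1)) 0 (fun _ => u), if_pos (by simp)]
      rw [h3] at h2
      set y := ∑ n ∈ range (N' + 1), (((s ^ n : ℕ) : ℤ)) • z n with hy
      have hym : y ∈ hh C P := by
        refine Submodule.sum_mem _ fun n _ => ?_
        rw [← Int.cast_smul_eq_zsmul ℝ]
        exact Submodule.smul_mem _ _ (hzm n)
      refine ⟨hym, ?_⟩
      have huy := Submodule.add_mem _ hu hym
      obtain ⟨t, ht, ht2⟩ := hLat.exp_mul hsw hu
      have hnsw : (-((s : ℚ) • w)) ∈ hh C P := Submodule.neg_mem _ hsw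
      have e1 := eG_mul_of C P hk hF hsw hu ht ht2
      have e2 := eG_mul_of C P hk hF ht hnsw huy (by rw [← ht2]; exact h2)
      have e3 : fC C P χ (u + y) = fC C P χ u := by
        rw [fC_eq C P χ huy, ← e2, ← e1, map_mul, map_mul, ← fC_eq C P χ hsw, ← fC_eq C P χ hnsw,
          fC_neg C P χ hχ hk hF hsw, mul_comm (fC C P χ ((s : ℚ) • w)), mul_assoc,
          mul_inv_cancel, mul_one, ← fC_eq C P χ hu]
      rw [fC_add C P χ hχ hk hF hu hym] at e3
      exact mul_eq_left.1 e3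
    have h2 : z 1 = w * u - u * w := by
      rw [hz]
      simp only [one_ne_zero, if_false, Nat.factorial_one, Nat.cast_one, inv_one, one_smul,
        Function.iterate_one]
      unfold adr
      noncomm_ring
    rw [h2] at h1
    exact h1
  have hv : (vdm N' : ℝ) ≠ 0 := by exact_mod_cast vdm_ne_zero N'
  have h1 := key ((vdm N' : ℝ)⁻¹ • x) (Submodule.smul_mem _ _ hx)
  rw [mul_smul_comm, smul_mul_assoc, ← smul_sub, ← Int.cast_smul_eq_zsmul ℝ, smul_smul,
    mul_inv_cancel₀ hv, one_smul] at h1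
  exact h1.2

theorem fC_sh (HHP : ∀ x ∈ hh C P, ∀ n : ℤ, sh n x ∈ hh C P) {x : AF N d} (hx : x ∈ hh C P) :
    fC C P χ (sh 1 x) = fC C P χ x := by
  have h1 := HHP x hx 1
  have e : sG C P * eG C P x hx = eG C P (sh 1 x) h1 * sG C P := by
    apply Subtype.ext
    apply BG.ext
    · funext p
      change 1 * E (x (p.1 + 1, p.2)) = E (x (p.1 + 1, p.2)) * 1
      rw [one_mul, mul_one]
    · rfl
  have e2 := congrArg χ e
  rw [map_mul, map_mul, mul_comm] at e2
  rw [fC_eq C P χ h1, fC_eq C P χ hx]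
  exact (mul_right_cancel e2).symm

end add

theorem ADD : S_ADD := by
  intro HHP _ N d C P χ hχ
  obtain ⟨M, hM, hPM⟩ := exists_M P
  obtain ⟨hk, hF, hsh, -, -⟩ := HHP N d M C P hM hPM
  refine ⟨fC C P χ, ?_, ?_, ?_⟩
  · intro x hx g hg
    rw [fC_eq C P χ hx]
    congr 1
    exact Subtype.ext hg
  · exact fun x hx y hy => fC_add C P χ hχ hk hF hx hy
  · intro x hx
    have key : x ∈ hh C P ∧ fC C P χ x = 1 := by
      refine Submodule.closure_induction (p := fun x _ => x ∈ hh C P ∧ fC C P χ x = 1)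
        ⟨Submodule.zero_mem _, fC_zero C P χ⟩ ?_ ?_ hx
      · rintro a b _ _ ⟨ha, ha1⟩ ⟨hb, hb1⟩
        refine ⟨Submodule.add_mem _ ha hb, ?_⟩
        rw [fC_add C P χ hχ hk hF ha hb, ha1, hb1, one_mul]
      · rintro r y (⟨u, hu, v, hv, rfl⟩ | ⟨u, hu, rfl⟩)
        · refine ⟨Submodule.smul_mem _ _ (hh_br C P hu hv), ?_⟩
          have e : r • (u * v - v * u) = (r • u) * v - v * (r • u) := by
            rw [smul_mul_assoc, mul_smul_comm, smul_sub]
          rw [e]
          exact fC_br C P χ hχ hk hF (Submodule.smul_mem _ _ hu) hv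
        · have hu2 := hsh u hu 1
          refine ⟨Submodule.smul_mem _ _ (Submodule.sub_mem _ hu2 hu), ?_⟩
          have e : r • (sh 1 u - u) = sh 1 (r • u) + -(r • u) := by
            rw [smul_sub, map_smul, sub_eq_add_neg]
          have hru : r • u ∈ hh C P := Submodule.smul_mem _ _ hu
          rw [e, fC_add C P χ hχ hk hF (hsh _ hru 1) (Submodule.neg_mem _ hru),
            fC_neg C P χ hχ hk hF hru, fC_sh C P χ hsh hru, mul_inv_cancel]
    exact key.2

end Run7.h929.NL
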