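import Pool.Agent.Run7.h929.NL.ADD

/-!
# Project NL: the piece CHI
-/

set_option autoImplicit false

namespace Run7.h929.NL

open Finset Filter Topology Pool.Agent.TH91.RF Pool.Agent.TH91.NB Pool.Agent.TH91.LG Run7.h664.NL

variable {N d : ℕ}

section kk

variable (C : Core N)

/-- the brackets of `k` -/
def brk : Submodule ℝ (Mt N) := Submodule.span ℝ {x | ∃ u ∈ C.k, ∃ v ∈ C.k, x = u * v - v * u}

theorem brk_le : brk C ≤ C.k := by
  refine Submodule.span_le.2 ?_
  rintro x ⟨u, hu, v, hv, rfl⟩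
  exact C.br u hu v hv

theorem k_mul {x y : Mt N} (hx : x ∈ C.k) (hy : y ∈ C.k) :
    ∃ j ∈ brk C, E x * E y = E (x + y + j) := by
  have hT : LieLat (mF N) C.k.toAddSubgroup := lat_of _ _ C.sup C.br
  have hJ : LieIdl N C.k.toAddSubgroup (brk C).toAddSubgroup :=
    idl_of N _ _ (brk_le C) fun u hu v hv => Submodule.subset_span ⟨u, hu, v, brk_le C hv, rfl⟩
  obtain ⟨j, hj, h⟩ := hT.exp_mul_add hJ hx hy
    (rat_smul_mem (brk C) _ (Submodule.subset_span ⟨x, hx, y, hy, rfl⟩))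
  refine ⟨j, hj, E_mul_of (C.sup x hx) (C.sup y hy) (C.sup _ ?_) h⟩
  exact Submodule.add_mem _ (Submodule.add_mem _ hx hy) (brk_le C hj)

/-- conjugation by `γ` -/
noncomputable def cj (x : Mt N) : Mt N :=
  ((E C.Mc : (Mt N)ˣ) : Mt N) * x * (((E C.Mc)⁻¹ : (Mt N)ˣ) : Mt N)

theorem adrk_mem {x : Mt N} (hx : x ∈ C.k) (k : ℕ) : (adr (-C.Mc))^[k] x ∈ C.k := by
  induction k with
  | zero => exact hx
  | succ k ih =>
    rw [Function.iterate_succ_apply']
    have h := C.brMc _ ih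
    have e : adr (-C.Mc) ((adr (-C.Mc))^[k] x) =
        C.Mc * ((adr (-C.Mc))^[k] x) - ((adr (-C.Mc))^[k] x) * C.Mc := by
      unfold adr
      noncomm_ring
    rw [e]
    exact h

/-- the powers of the conjugation -/
theorem cj_pow {x : Mt N} (hx : x ∈ C.k) (n : ℕ) :
    (cj C)^[n] x = ∑ k ∈ range (N + 1), ((n : ℚ) ^ k) • (((k.factorial : ℚ))⁻¹ • (adr (-C.Mc))^[k] x) := by
  have h1 : ∀ n : ℕ, (cj C)^[n] x =
      ((E C.Mc ^ n : (Mt N)ˣ) : Mt N) * x * (((E C.Mc ^ n)⁻¹ : (Mt N)ˣ) : Mt N) := by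
    intro n
    induction n with
    | zero => simp
    | succ n ih =>
      rw [Function.iterate_succ_apply', ih]
      unfold cj
      rw [pow_succ', mul_inv_rev, Units.val_mul, Units.val_mul]
      simp only [mul_assoc]
  have hw : ((n : ℚ) • C.Mc) ∈ (mF N).F 1 := Submodule.smul_mem _ _ C.supMc
  have e0 : ((n : ℝ) • C.Mc) = ((n : ℚ) • C.Mc) := by
    rw [← Rat.cast_smul_eq_qsmul ℝ, Rat.cast_natCast]
  have e1 : E C.Mc ^ n = E ((n : ℚ) • C.Mc) := by
    rw [← E_nsmul C.supMc n, e0]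
  rw [h1, e1, E_val hw, E_inv_val hw, mul_assoc,
    (mF N).mul_exp (Submodule.neg_mem _ hw) (C.sup x hx), ← mul_assoc,
    IsNilpotent.exp_mul_exp_neg_self ((mF N).nilp hw), one_mul]
  refine Finset.sum_congr rfl fun k _ => ?_
  rw [← smul_neg, adr_smul_iter, smul_comm]

theorem cj_mem {x : Mt N} (hx : x ∈ C.k) : cj C x ∈ C.k := by
  have h := cj_pow C hx 1
  rw [Function.iterate_one] at h
  rw [h]
  exact Submodule.sum_mem _ fun k _ => rat_smul_mem _ _ (rat_smul_mem _ _ (adrk_mem C hx k))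

theorem E_cj {x : Mt N} (hx : x ∈ C.k) : E (cj C x) = E C.Mc * E x * (E C.Mc)⁻¹ :=
  E_conj _ (C.sup x hx) (C.sup _ (cj_mem C hx))

end kk

section general

variable (C : Core N) {H : Subgroup (Mt N)ˣ} {X : Type} [TopologicalSpace X] [CompactSpace X]
  [T2Space X] [MulAction H X] [ContinuousSMul H X] {x0 : X} (D : Dyn C H X x0)

include D

/-- an additive function on `k` which descends to an eigenfunction on `X` with an eigenvalue of
finite order has finite order -/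
theorem gen_lemma (Ψ : Mt N → Circle) (hadd : ∀ x ∈ C.k, ∀ y ∈ C.k, Ψ (x + y) = Ψ x * Ψ y)
    (hcont : Continuous fun x : C.k => Ψ x)
    (hSt : ∀ x ∈ C.k, E x ∈ St (H := H) x0 → Ψ x = 1) (hbr : ∀ x ∈ brk C, Ψ x = 1)
    (hconj : ∀ x ∈ C.k, Ψ (cj C x) = Ψ x) {ξ : Mt N} (hξ : ξ ∈ C.k)
    (hξE : E C.Mg * (E C.Mc)⁻¹ = E ξ) {m : ℕ} (hm : Ψ ξ ^ m = 1) :
    ∀ x ∈ C.k, Ψ x ^ m = 1 := by
  have h0 : Ψ 0 = 1 := by
    have h := hadd 0 (Submodule.zero_mem _) 0 (Submodule.zero_mem _)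
    rw [add_zero] at h
    exact left_eq_mul.1 h
  have hneg : ∀ x ∈ C.k, Ψ (-x) = (Ψ x)⁻¹ := by
    intro x hx
    have h := hadd x hx (-x) (Submodule.neg_mem _ hx)
    rw [add_neg_cancel, h0] at h
    exact eq_inv_of_mul_eq_one_right h.symm
  -- well defined
  have hwd : ∀ (x : Mt N) (hx : x ∈ C.k) (y : Mt N) (hy : y ∈ C.k),
      (⟨E x, D.mem x hx⟩ : H) • x0 = (⟨E y, D.mem y hy⟩ : H) • x0 → Ψ x = Ψ y := by
    intro x hx y hy h
    have h1 : ((⟨E x, D.mem x hx⟩ : H)⁻¹ * (⟨E y, D.mem y hy⟩ : H)) • x0 = x0 := by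
      rw [mul_smul, ← h, inv_smul_smul]
    have h2 : (E x)⁻¹ * E y ∈ St (H := H) x0 := ⟨_, h1, rfl⟩
    have hnx : -x ∈ C.k := Submodule.neg_mem _ hx
    obtain ⟨j, hj, hj2⟩ := k_mul C hnx hy
    rw [E_neg (C.sup x hx)] at hj2
    rw [hj2] at h2
    have hjk := brk_le C hj
    have h3 := hSt _ (Submodule.add_mem _ (Submodule.add_mem _ hnx hy) hjk) h2
    rw [hadd _ (Submodule.add_mem _ hnx hy) _ hjk, hbr _ hj, mul_one, hadd _ hnx _ hy,
      hneg x hx] at h3
    exact (inv_mul_eq_one.1 h3)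
  obtain ⟨R, hR⟩ := D.bdd
  choose r hrk hrb hrx using hR
  set F : X → Circle := fun y => Ψ (r y) ^ m with hF
  have hFe : ∀ (x : Mt N) (hx : x ∈ C.k), F ((⟨E x, D.mem x hx⟩ : H) • x0) = Ψ x ^ m := by
    intro x hx
    rw [hF]
    simp only
    rw [hwd _ (hrk _) x hx (hrx _)]
  -- the compact set
  set S : Set (Mt N) := Set.univ.pi fun _ => Set.univ.pi fun _ => Set.Icc (-R) R with hS
  have hSc : IsCompact S := isCompact_univ_pi fun _ => isCompact_univ_pi fun _ => isCompact_Icc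
  have hkc : IsClosed (C.k : Set (Mt N)) := Submodule.closed_of_finiteDimensional _
  have hSk : IsCompact (S ∩ (C.k : Set (Mt N))) := hSc.inter_right hkc
  haveI : CompactSpace ↥(S ∩ (C.k : Set (Mt N))) := isCompact_iff_compactSpace.1 hSk
  set q : ↥(S ∩ (C.k : Set (Mt N))) → X := fun x => (⟨E x.1, D.mem x.1 x.2.2⟩ : H) • x0 with hq
  have hqc : Continuous q := by
    rw [hq]
    refine Continuous.smul ?_ continuous_const
    exact Continuous.subtype_mk (E_cont continuous_subtype_val fun t => C.sup _ t.2.2) _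
  have hqs : Function.Surjective q := by
    intro y
    refine ⟨⟨r y, ?_, hrk y⟩, hrx y⟩
    exact fun i _ j _ => abs_le.1 (hrb y i j)
  have hqq : IsQuotientMap q := hqc.isClosedMap.isQuotientMap hqc hqs
  have hFc : Continuous F := by
    rw [hqq.continuous_iff]
    have e : F ∘ q = fun x => Ψ x.1 ^ m := by
      funext x
      exact hFe x.1 x.2.2
    rw [e]
    refine Continuous.pow ?_ m
    exact hcont.comp (Continuous.subtype_mk continuous_subtype_val fun x => x.2.2)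
  -- invariance
  have hinv : ∀ y : X, F ((⟨E C.Mg, D.memg⟩ : H) • y) = F y := by
    intro y
    have hx := hrk y
    set x := r y with hxd
    have hcx := cj_mem C hx
    obtain ⟨j, hj, hj2⟩ := k_mul C hξ hcx
    have hjk := brk_le C hj
    have hmem : ξ + cj C x + j ∈ C.k := Submodule.add_mem _ (Submodule.add_mem _ hξ hcx) hjk
    have e1 : (⟨E C.Mg, D.memg⟩ : H) * (⟨E x, D.mem x hx⟩ : H) =
        (⟨E (ξ + cj C x + j), D.mem _ hmem⟩ : H) * (⟨E C.Mc, D.memc⟩ : H) := by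
      apply Subtype.ext
      change E C.Mg * E x = E (ξ + cj C x + j) * E C.Mc
      rw [← hj2, E_cj C hx, ← hξE]
      group
    have e2 : (⟨E C.Mg, D.memg⟩ : H) • y = (⟨E (ξ + cj C x + j), D.mem _ hmem⟩ : H) • x0 := by
      conv_lhs => rw [← hrx y]
      rw [← mul_smul, e1, mul_smul, D.fix]
    rw [e2, hFe _ hmem, hadd _ (Submodule.add_mem _ hξ hcx) _ hjk, hbr _ hj, mul_one,
      hadd _ hξ _ hcx, hconj _ hx, mul_pow, hm, one_mul]
  have hinv2 : ∀ (n : ℕ) (y : X), F ((⟨E C.Mg, D.memg⟩ : H) ^ n • y) = F y := by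
    intro n
    induction n with
    | zero => intro y; rw [pow_zero, one_smul]
    | succ n ih => intro y; rw [pow_succ', mul_smul, hinv, ih]
  have hinv3 : ∀ (n : ℤ) (y : X), F ((⟨E C.Mg, D.memg⟩ : H) ^ n • y) = F y := by
    intro n y
    obtain ⟨n, rfl | rfl⟩ := n.eq_nat_or_neg
    · rw [zpow_natCast, hinv2]
    · rw [zpow_neg, zpow_natCast]
      have h := hinv2 n (((⟨E C.Mg, D.memg⟩ : H) ^ n)⁻¹ • y)
      rw [smul_inv_smul] at h
      exact h.symm
  have hF0 : F x0 = 1 := by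
    have h := hFe 0 (Submodule.zero_mem _)
    rw [h0, one_pow] at h
    have e : (⟨E 0, D.mem 0 (Submodule.zero_mem _)⟩ : H) = 1 := Subtype.ext E_zero
    rwa [e, one_smul] at h
  have hF1 : F = fun _ => 1 := by
    refine Continuous.ext_on (D.min x0) hFc continuous_const ?_
    rintro y ⟨n, rfl⟩
    simp only
    rw [hinv3, hF0]
  intro x hx
  rw [← hFe x hx, hF1]

end general

section af

variable (C : Core N) (P : Fin d → Polynomial ℤ)

theorem Af_eq (ξ : Mt N) (h : ℤ) (p : ℤ × Fin d) : Af C P ξ h p =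
    ((E C.Mc ^ ((P p.2).eval (p.1 + h)) : (Mt N)ˣ) : Mt N) * ξ *
      (((E C.Mc ^ ((P p.2).eval (p.1 + h)))⁻¹ : (Mt N)ˣ) : Mt N) := by
  unfold Af
  rw [zpow_neg]

theorem Bf_eq (ξ : Mt N) (h : ℤ) (p : ℤ × Fin d) : Bf C P ξ h p =
    ((((P p.2).derivative.eval (p.1 + h) : ℤ) : ℝ)) • Af C P ξ h p := rfl

theorem Af_mem {ξ : Mt N} (hξ : ξ ∈ C.k) (h : ℤ) : Af C P ξ h ∈ hh C P :=
  subset_lieSp _ ⟨ξ, hξ, h, Or.inl rfl⟩

theorem Bf_mem {ξ : Mt N} (hξ : ξ ∈ C.k) (h : ℤ) : Bf C P ξ h ∈ hh C P :=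
  subset_lieSp _ ⟨ξ, hξ, h, Or.inr rfl⟩

theorem Af_add (x y : Mt N) (h : ℤ) : Af C P (x + y) h = Af C P x h + Af C P y h := by
  funext p
  rw [Pi.add_apply, Af_eq, Af_eq, Af_eq, mul_add, add_mul]

theorem Bf_add (x y : Mt N) (h : ℤ) : Bf C P (x + y) h = Bf C P x h + Bf C P y h := by
  funext p
  rw [Pi.add_apply, Bf_eq, Bf_eq, Bf_eq, Af_add, Pi.add_apply, smul_add]

theorem Af_smul (r : ℝ) (x : Mt N) (h : ℤ) : Af C P (r • x) h = r • Af C P x h := by
  funext p
  rw [Pi.smul_apply, Af_eq, Af_eq, mul_smul_comm, smul_mul_assoc]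

theorem Bf_smul (r : ℝ) (x : Mt N) (h : ℤ) : Bf C P (r • x) h = r • Bf C P x h := by
  funext p
  rw [Pi.smul_apply, Bf_eq, Bf_eq, Af_smul, Pi.smul_apply, smul_comm]

theorem Af_br (x y : Mt N) (h : ℤ) : Af C P (x * y - y * x) h =
    Af C P x h * Af C P y h - Af C P y h * Af C P x h := by
  funext p
  rw [Pi.sub_apply, Pi.mul_apply, Pi.mul_apply, Af_eq, Af_eq, Af_eq]
  set u := E C.Mc ^ ((P p.2).eval (p.1 + h)) with hu
  have h1 : ∀ a b : Mt N, (u : Mt N) * a * ((u⁻¹ : (Mt N)ˣ) : Mt N) *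
      ((u : Mt N) * b * ((u⁻¹ : (Mt N)ˣ) : Mt N)) = (u : Mt N) * (a * b) * ((u⁻¹ : (Mt N)ˣ) : Mt N) := by
    intro a b
    calc (u : Mt N) * a * ((u⁻¹ : (Mt N)ˣ) : Mt N) * ((u : Mt N) * b * ((u⁻¹ : (Mt N)ˣ) : Mt N))
        = (u : Mt N) * a * (((u⁻¹ : (Mt N)ˣ) : Mt N) * (u : Mt N)) * b * ((u⁻¹ : (Mt N)ˣ) : Mt N) := by
          simp only [mul_assoc]
      _ = _ := by rw [Units.inv_mul, mul_one]; simp only [mul_assoc]
  rw [h1, h1, mul_sub, sub_mul]

theorem Bf_br (x y : Mt N) (h : ℤ) : Bf C P (x * y - y * x) h =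
    Bf C P x h * Af C P y h - Af C P y h * Bf C P x h := by
  funext p
  rw [Bf_eq, Af_br, Pi.sub_apply, Pi.sub_apply, Pi.mul_apply, Pi.mul_apply, Pi.mul_apply,
    Pi.mul_apply, Bf_eq, smul_mul_assoc, mul_smul_comm, smul_sub]

theorem Af_cj (x : Mt N) (h : ℤ) : Af C P (cj C x) h =
    fun p => ((E C.Mc ^ (1 : ℤ) : (Mt N)ˣ) : Mt N) * Af C P x h p *
      ((E C.Mc ^ (-(1 : ℤ)) : (Mt N)ˣ) : Mt N) := by
  funext p
  rw [Af_eq, Af_eq, zpow_one, zpow_neg, zpow_one]
  unfold cj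
  set a := (P p.2).eval (p.1 + h) with ha
  have h1 : E C.Mc ^ a * E C.Mc = E C.Mc * E C.Mc ^ a := by group
  have h2 : (E C.Mc)⁻¹ * (E C.Mc ^ a)⁻¹ = (E C.Mc ^ a)⁻¹ * (E C.Mc)⁻¹ := by group
  calc ((E C.Mc ^ a : (Mt N)ˣ) : Mt N) *
        (((E C.Mc : (Mt N)ˣ) : Mt N) * x * (((E C.Mc)⁻¹ : (Mt N)ˣ) : Mt N)) *
        (((E C.Mc ^ a)⁻¹ : (Mt N)ˣ) : Mt N)
      = ((E C.Mc ^ a * E C.Mc : (Mt N)ˣ) : Mt N) * x *
        (((E C.Mc)⁻¹ * (E C.Mc ^ a)⁻¹ : (Mt N)ˣ) : Mt N) := by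
          rw [Units.val_mul, Units.val_mul]; simp only [mul_assoc]
    _ = _ := by rw [h1, h2, Units.val_mul, Units.val_mul]; simp only [mul_assoc]

theorem Bf_cj (x : Mt N) (h : ℤ) : Bf C P (cj C x) h =
    fun p => ((E C.Mc ^ (1 : ℤ) : (Mt N)ˣ) : Mt N) * Bf C P x h p *
      ((E C.Mc ^ (-(1 : ℤ)) : (Mt N)ˣ) : Mt N) := by
  funext p
  rw [Bf_eq, Af_cj, Bf_eq, mul_smul_comm, smul_mul_assoc]

theorem Af_sh (x : Mt N) (h : ℤ) : Af C P x h = sh h (Af C P x 0) := by
  funext p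
  rw [sh_apply, Af_eq, Af_eq]
  simp only [add_zero]

theorem Bf_sh (x : Mt N) (h : ℤ) : Bf C P x h = sh h (Bf C P x 0) := by
  funext p
  rw [sh_apply, Bf_eq, Bf_eq, Af_sh, sh_apply]
  simp only [add_zero]

theorem E_Af {x : Mt N} (hx : x ∈ C.k) {h : ℤ} {p : ℤ × Fin d} (hA : Af C P x h p ∈ C.k) :
    E (Af C P x h p) = E C.Mc ^ ((P p.2).eval (p.1 + h)) * E x *
      (E C.Mc ^ ((P p.2).eval (p.1 + h)))⁻¹ := by
  have hA' := hA
  rw [Af_eq] at hA'
  rw [Af_eq]
  exact E_conj _ (C.sup x hx) (C.sup _ hA')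

theorem continuous_eG {T : Type*} [TopologicalSpace T] {g : T → AF N d} (hg : ∀ t, g t ∈ hh C P)
    (hk : ∀ x ∈ hh C P, ∀ p, x p ∈ C.k)
    (hc : ∀ p, Continuous fun t => g t p) : Continuous fun t => eG C P (g t) (hg t) := by
  refine Continuous.subtype_mk ?_ _
  refine BG.continuous_mk (fun p => ?_) continuous_const
  exact E_cont (hc p) fun t => C.sup _ (hk _ (hg t) p)

theorem sG_pow (n : ℕ) : ((sG C P ^ n : GG C P) : BG N d) = ⟨fun _ => 1, n⟩ := by
  induction n with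
  | zero => rfl
  | succ n ih =>
    rw [pow_succ, Subgroup.coe_mul, ih]
    apply BG.ext
    · funext p
      change (1 : (Mt N)ˣ) * 1 = 1
      rw [one_mul]
    · change (n : ℤ) + 1 = ((n + 1 : ℕ) : ℤ)
      push_cast
      ring

end af

theorem CHI : S_CHI := by
  intro HHP _ ADDh G0 F4 ABM SHF _ N d C P H X _ _ _ _ _ x0 D k hk0 χ hχ hLam hz1 hz2
  obtain ⟨f, hf, hfadd, hfjj⟩ := ADDh HHP ‹S_GGM› N d C P χ hχ
  obtain ⟨M, hM, hPM⟩ := exists_M P
  obtain ⟨hk, hF, hsh, hcjm, -⟩ := HHP N d M C P hM hPM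
  have hfe : ∀ (x : AF N d) (hx : x ∈ hh C P), f x = χ (eG C P x hx) := fun x hx =>
    (hf x hx (eG C P x hx) rfl).symm
  have hf0 : f 0 = 1 := by
    have h := hfadd 0 (Submodule.zero_mem _) 0 (Submodule.zero_mem _)
    rw [add_zero] at h
    exact left_eq_mul.1 h
  -- the stabilizer
  have hγ : E C.Mc ∈ St (H := H) x0 := ⟨⟨E C.Mc, D.memc⟩, D.fix, rfl⟩
  have hχγ : χ (gG C P) = 1 := hLam _ ⟨fun _ => hγ, dvd_zero _⟩
  have hχs : χ (sG C P) ^ k = 1 := by
    rw [← map_pow]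
    refine hLam _ ⟨fun p => ?_, ?_⟩
    · rw [sG_pow]
      exact (St (H := H) x0).one_mem
    · rw [sG_pow]
  -- conjugation by γ
  have hfcj : ∀ x ∈ hh C P, f (fun p => ((E C.Mc ^ (1 : ℤ) : (Mt N)ˣ) : Mt N) * x p *
      ((E C.Mc ^ (-(1 : ℤ)) : (Mt N)ˣ) : Mt N)) = f x := by
    intro x hx
    have hx2 := hcjm x hx 1
    rw [hfe _ hx2, hfe _ hx]
    have e : gG C P * eG C P x hx = eG C P _ hx2 * gG C P := by
      apply Subtype.ext
      apply BG.ext
      · funext p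
        change E C.Mc * E (x (p.1 + 0, p.2)) = E (((E C.Mc ^ (1 : ℤ) : (Mt N)ˣ) : Mt N) * x p *
          ((E C.Mc ^ (-(1 : ℤ)) : (Mt N)ˣ) : Mt N)) * E C.Mc
        have e1 : (p.1 + 0, p.2) = p := by rw [add_zero]
        have h1 := C.sup _ (hk _ hx2 p)
        simp only [zpow_one, zpow_neg] at h1 ⊢
        rw [e1, E_conj _ (C.sup _ (hk _ hx p)) h1, inv_mul_cancel_right]
      · rfl
    have e2 := congrArg χ e
    rw [map_mul, map_mul, mul_comm] at e2
    exact (mul_right_cancel e2).symm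
  -- ξ₀
  obtain ⟨j, hj, hjk, hjE⟩ := G0 N C
  set ξ := C.Mg - C.Mc + j with hξd
  have hξ : ξ ∈ C.k := Submodule.add_mem _ C.diff hjk
  -- the first function
  have hΦ : ∀ x ∈ C.k, f (Af C P x 0) = 1 := by
    have h1 := gen_lemma C D (fun x => f (Af C P x 0)) (ξ := ξ) (m := 1)
      (by
        intro x hx y hy
        rw [Af_add, hfadd _ (Af_mem C P hx 0) _ (Af_mem C P hy 0)])
      (by
        have e : (fun x : C.k => f (Af C P (x : Mt N) 0)) =
            fun x : C.k => χ (eG C P (Af C P (x : Mt N) 0) (Af_mem C P x.2 0)) := by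
          funext x
          exact hfe _ _
        rw [e]
        refine hχ.comp (continuous_eG C P _ hk fun p => ?_)
        simp only [Af_eq]
        exact (continuous_const.mul continuous_subtype_val).mul continuous_const)
      (by
        intro x hx hxS
        rw [hfe _ (Af_mem C P hx 0)]
        refine hLam _ ⟨fun p => ?_, dvd_zero _⟩
        change E (Af C P x 0 p) ∈ St (H := H) x0
        rw [E_Af C P hx (hk _ (Af_mem C P hx 0) p)]
        exact (St (H := H) x0).mul_mem ((St (H := H) x0).mul_mem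
          ((St (H := H) x0).zpow_mem hγ _) hxS)
          ((St (H := H) x0).inv_mem ((St (H := H) x0).zpow_mem hγ _)))
      (by
        intro x hx
        have key : x ∈ C.k ∧ f (Af C P x 0) = 1 := by
          refine Submodule.closure_induction (p := fun x _ => x ∈ C.k ∧ f (Af C P x 0) = 1)
            ⟨Submodule.zero_mem _, ?_⟩ ?_ ?_ hx
          · have : Af C P (0 : Mt N) 0 = 0 := by
              have := Af_smul C P 0 (0 : Mt N) 0
              rwa [zero_smul, zero_smul] at this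
            rw [this, hf0]
          · rintro a b _ _ ⟨ha, ha1⟩ ⟨hb, hb1⟩
            refine ⟨Submodule.add_mem _ ha hb, ?_⟩
            rw [Af_add, hfadd _ (Af_mem C P ha 0) _ (Af_mem C P hb 0), ha1, hb1, one_mul]
          · rintro r y ⟨u, hu, v, hv, rfl⟩
            refine ⟨Submodule.smul_mem _ _ (C.br u hu v hv), ?_⟩
            have e : r • (u * v - v * u) = (r • u) * v - v * (r • u) := by
              rw [smul_mul_assoc, mul_smul_comm, smul_sub]
            rw [e, Af_br]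
            exact hfjj _ (Submodule.subset_span (Or.inl ⟨_, Af_mem C P
              (Submodule.smul_mem _ r hu) 0, _, Af_mem C P hv 0, rfl⟩))
        exact key.2)
      (by
        intro x hx
        rw [Af_cj]
        exact hfcj _ (Af_mem C P hx 0))
      hξ hjE
      (by
        rw [pow_one, hfe _ (Af_mem C P hξ 0)]
        have h2 := hz2 (eG C P _ (Af_mem C P hξ 0) * gG C P) (by
          apply BG.ext
          · funext p
            change E (Af C P ξ 0 p) * E C.Mc = (bb C P p)⁻¹ * E C.Mg * bb C P p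
            rw [E_Af C P hξ (hk _ (Af_mem C P hξ 0) p), ← hjE]
            unfold bb
            rw [add_zero]
            group
          · rfl)
        rw [map_mul, hχγ, mul_one] at h2
        exact h2)
    intro x hx
    have h2 := h1 x hx
    rw [pow_one] at h2
    exact h2
  -- the second function
  have hΘadd : ∀ x ∈ C.k, ∀ y ∈ C.k, f (Bf C P (x + y) 0) = f (Bf C P x 0) * f (Bf C P y 0) := by
    intro x hx y hy
    rw [Bf_add, hfadd _ (Bf_mem C P hx 0) _ (Bf_mem C P hy 0)]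
  have hΘ0 : f (Bf C P (0 : Mt N) 0) = 1 := by
    have : Bf C P (0 : Mt N) 0 = 0 := by
      have := Bf_smul C P 0 (0 : Mt N) 0
      rwa [zero_smul, zero_smul] at this
    rw [this, hf0]
  have hΘneg : ∀ x ∈ C.k, f (Bf C P (-x) 0) = (f (Bf C P x 0))⁻¹ := by
    intro x hx
    have h := hΘadd x hx (-x) (Submodule.neg_mem _ hx)
    rw [add_neg_cancel, hΘ0] at h
    exact eq_inv_of_mul_eq_one_right h.symm
  have hΘcj : ∀ x ∈ C.k, f (Bf C P (cj C x) 0) = f (Bf C P x 0) := by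
    intro x hx
    rw [Bf_cj]
    exact hfcj _ (Bf_mem C P hx 0)
  have hΘcjn : ∀ (n : ℕ) (x : Mt N), x ∈ C.k → (cj C)^[n] x ∈ C.k ∧
      f (Bf C P ((cj C)^[n] x) 0) = f (Bf C P x 0) := by
    intro n
    induction n with
    | zero => exact fun x hx => ⟨hx, rfl⟩
    | succ n ih =>
      intro x hx
      rw [Function.iterate_succ_apply']
      exact ⟨cj_mem C (ih x hx).1, by rw [hΘcj _ (ih x hx).1, (ih x hx).2]⟩
  -- the brackets with `Mc`
  let K : AddSubgroup (Mt N) :=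
    { carrier := {y | y ∈ C.k ∧ f (Bf C P y 0) = 1}
      add_mem' := by
        rintro a b ⟨ha, ha1⟩ ⟨hb, hb1⟩
        refine ⟨Submodule.add_mem _ ha hb, ?_⟩
        rw [hΘadd _ ha _ hb, ha1, hb1, one_mul]
      zero_mem' := ⟨Submodule.zero_mem _, hΘ0⟩
      neg_mem' := by
        rintro a ⟨ha, ha1⟩
        refine ⟨Submodule.neg_mem _ ha, ?_⟩
        rw [hΘneg _ ha, ha1, inv_one] }
  have hΘMc : ∀ u ∈ C.k, f (Bf C P (C.Mc * u - u * C.Mc) 0) = 1 := by
    intro w hw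
    rcases Nat.eq_zero_or_pos N with hN | hN
    · subst hN
      have : C.Mc * w - w * C.Mc = 0 := Subsingleton.elim _ _
      rw [this, hΘ0]
    have key : ∀ u ∈ C.k, vdm N • (C.Mc * u - u * C.Mc) ∈ K := by
      intro u hu
      set z : ℕ → Mt N := fun n => if n = 0 then 0 else
        ((n.factorial : ℚ))⁻¹ • (adr (-C.Mc))^[n] u with hz
      have hzm : ∀ n, z n ∈ C.k := by
        intro n
        rw [hz]
        simp only
        split_ifs
        · exact Submodule.zero_mem _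
        · exact rat_smul_mem _ _ (adrk_mem C hu n)
      have h1 : vdm N • z 1 ∈ K := by
        refine vdm_mem N K z (fun s => ?_) 1 (by omega)
        have h3 : (cj C)^[s] u = u + ∑ n ∈ range (N + 1), (((s ^ n : ℕ) : ℤ)) • z n := by
          rw [cj_pow C hu s]
          have h4 : ∀ k, ((s : ℚ) ^ k) • (((k.factorial : ℚ))⁻¹ • (adr (-C.Mc))^[k] u) =
              (if k = 0 then u else 0) + (((s ^ k : ℕ) : ℤ)) • z k := by
            intro k
            rw [hz]
            simp only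
            split_ifs with h0
            · subst h0
              simp
            · rw [zero_add, natCast_zsmul, ← Nat.cast_smul_eq_nsmul ℚ, Nat.cast_pow]
          rw [Finset.sum_congr rfl fun k _ => h4 k, Finset.sum_add_distrib]
          congr 1
          rw [Finset.sum_ite_eq' (range (N + 1)) 0 (fun _ => u), if_pos (by simp)]
        set y := ∑ n ∈ range (N + 1), (((s ^ n : ℕ) : ℤ)) • z n with hy
        have hym : y ∈ C.k := by
          refine Submodule.sum_mem _ fun n _ => ?_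
          rw [← Int.cast_smul_eq_zsmul ℝ]
          exact Submodule.smul_mem _ _ (hzm n)
        refine ⟨hym, ?_⟩
        have e3 := (hΘcjn s u hu).2
        rw [h3, hΘadd u hu y hym] at e3
        exact mul_eq_left.1 e3
      have h2 : z 1 = C.Mc * u - u * C.Mc := by
        rw [hz]
        simp only [one_ne_zero, if_false, Nat.factorial_one, Nat.cast_one, inv_one, one_smul,
          Function.iterate_one]
        unfold adr
        noncomm_ring
      rw [h2] at h1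
      exact h1
    have hv : (vdm N : ℝ) ≠ 0 := by exact_mod_cast vdm_ne_zero N
    have h1 := key ((vdm N : ℝ)⁻¹ • w) (Submodule.smul_mem _ _ hw)
    rw [mul_smul_comm, smul_mul_assoc, ← smul_sub, ← Int.cast_smul_eq_zsmul ℝ, smul_smul,
      mul_inv_cancel₀ hv, one_smul] at h1
    exact h1.2
  have hΘj : ∀ x ∈ Submodule.span ℝ ({x | ∃ u ∈ C.k, ∃ v ∈ C.k, x = u * v - v * u} ∪
      {x | ∃ u ∈ C.k, x = C.Mc * u - u * C.Mc}), x ∈ C.k ∧ f (Bf C P x 0) = 1 := by
    intro x hx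
    refine Submodule.closure_induction (p := fun x _ => x ∈ C.k ∧ f (Bf C P x 0) = 1)
      ⟨Submodule.zero_mem _, hΘ0⟩ ?_ ?_ hx
    · rintro a b _ _ ⟨ha, ha1⟩ ⟨hb, hb1⟩
      exact ⟨Submodule.add_mem _ ha hb, by rw [hΘadd _ ha _ hb, ha1, hb1, one_mul]⟩
    · rintro r y (⟨u, hu, v, hv, rfl⟩ | ⟨u, hu, rfl⟩)
      · refine ⟨Submodule.smul_mem _ _ (C.br u hu v hv), ?_⟩
        have e : r • (u * v - v * u) = (r • u) * v - v * (r • u) := by
          rw [smul_mul_assoc, mul_smul_comm, smul_sub]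
        rw [e, Bf_br]
        exact hfjj _ (Submodule.subset_span (Or.inl ⟨_, Bf_mem C P
          (Submodule.smul_mem _ r hu) 0, _, Af_mem C P hv 0, rfl⟩))
      · refine ⟨Submodule.smul_mem _ _ (C.brMc u hu), ?_⟩
        have e : r • (C.Mc * u - u * C.Mc) = C.Mc * (r • u) - (r • u) * C.Mc := by
          rw [smul_mul_assoc, mul_smul_comm, smul_sub]
        rw [e]
        exact hΘMc _ (Submodule.smul_mem _ r hu)
  have hΘξ : f (Bf C P ξ 0) = (χ (sG C P))⁻¹ := by
    rw [hξd, hΘadd _ C.diff _ hjk, (hΘj j hj).2, mul_one]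
    obtain ⟨j', hj', hj2⟩ := F4 ABM HHP SHF N d C P
    have hj'h := jj_le C P HHP hj'
    have hB := Bf_mem C P C.diff 0
    have hBj := Submodule.add_mem _ hB hj'h
    have h2 := hz1 (eG C P _ hBj * sG C P) (by
      apply BG.ext
      · funext p
        change E ((Bf C P (C.Mg - C.Mc) 0 + j') p) * 1 = (z1 C P).u p
        apply Units.ext
        rw [mul_one, E_val (C.sup _ (hk _ hBj p)), hj2 p]
      · change (0 : ℤ) + 1 = 1
        rw [zero_add])
    rw [map_mul, ← hfe, hfadd _ hB _ hj'h, hfjj _ hj', mul_one] at h2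
    exact eq_inv_of_mul_eq_one_left h2
  have hΘk : ∀ x ∈ C.k, f (Bf C P x 0) ^ k = 1 := by
    refine gen_lemma C D (fun x => f (Bf C P x 0)) (ξ := ξ) (m := k) hΘadd ?_ ?_ ?_ hΘcj hξ hjE ?_
    · have e : (fun x : C.k => f (Bf C P (x : Mt N) 0)) =
          fun x : C.k => χ (eG C P (Bf C P (x : Mt N) 0) (Bf_mem C P x.2 0)) := by
        funext x
        exact hfe _ _
      rw [e]
      refine hχ.comp (continuous_eG C P _ hk fun p => ?_)
      have hA : Continuous fun t : C.k => Af C P (t : Mt N) 0 p := by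
        simp only [Af_eq]
        exact (continuous_const.mul continuous_subtype_val).mul continuous_const
      exact hA.const_smul ((((P p.2).derivative.eval (p.1 + 0) : ℤ) : ℝ))
    · intro x hx hxS
      rw [hfe _ (Bf_mem C P hx 0)]
      refine hLam _ ⟨fun p => ?_, dvd_zero _⟩
      change E (Bf C P x 0 p) ∈ St (H := H) x0
      have hA := hk _ (Af_mem C P hx 0) p
      rw [Bf_eq, E_zsmul (C.sup _ hA), E_Af C P hx hA]
      refine (St (H := H) x0).zpow_mem ?_ _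
      exact (St (H := H) x0).mul_mem ((St (H := H) x0).mul_mem
        ((St (H := H) x0).zpow_mem hγ _) hxS)
        ((St (H := H) x0).inv_mem ((St (H := H) x0).zpow_mem hγ _))
    · intro x hx
      exact (hΘj x (Submodule.span_mono Set.subset_union_left hx)).2
    · rw [hΘξ, inv_pow, hχs, inv_one]
  have hΘ : ∀ x ∈ C.k, f (Bf C P x 0) = 1 := by
    intro x hx
    have hk1 : (k : ℝ) ≠ 0 := by exact_mod_cast hk0.ne'
    have hn : ∀ (n : ℕ) (y : Mt N), y ∈ C.k → f (Bf C P ((n : ℝ) • y) 0) = f (Bf C P y 0) ^ n := by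
      intro n y hy
      induction n with
      | zero => rw [Nat.cast_zero, zero_smul, hΘ0, pow_zero]
      | succ n ih =>
        rw [Nat.cast_succ, add_smul, one_smul, hΘadd _ (Submodule.smul_mem _ _ hy) _ hy, ih,
          pow_succ]
    have h1 := hn k ((k : ℝ)⁻¹ • x) (Submodule.smul_mem _ _ hx)
    rw [smul_smul, mul_inv_cancel₀ hk1, one_smul, hΘk _ (Submodule.smul_mem _ _ hx)] at h1
    exact h1
  have hs1 : χ (sG C P) = 1 := by
    have h := hΘ ξ hξ
    rw [hΘξ] at h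
    exact inv_eq_one.1 h
  -- the shifts
  have hfs1 : ∀ x ∈ hh C P, f (sh 1 x) = f x := by
    intro x hx
    have h1 := hsh x hx 1
    have h2 := hfjj (sh 1 x - x) (Submodule.subset_span (Or.inr ⟨x, hx, rfl⟩))
    have h3 := hfadd (sh 1 x - x) (Submodule.sub_mem _ h1 hx) x hx
    rwa [sub_add_cancel, h2, one_mul] at h3
  have hfs : ∀ (n : ℤ) (x : AF N d), x ∈ hh C P → f (sh n x) = f x := by
    intro n
    induction n using Int.induction_on with
    | zero => intro x _; rw [sh_zero]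
    | succ n ih =>
      intro x hx
      rw [add_comm (n : ℤ) 1, ← sh_add, hfs1 _ (hsh x hx _), ih x hx]
    | pred n ih =>
      intro x hx
      have h1 := hfs1 (sh (-(n : ℤ) - 1) x) (hsh x hx _)
      rw [sh_add, show (1 : ℤ) + (-(n : ℤ) - 1) = -(n : ℤ) by ring, ih x hx] at h1
      exact h1.symm
  -- everything
  let W : Submodule ℝ (AF N d) :=
    { carrier := {x | x ∈ hh C P ∧ ∀ r : ℝ, f (r • x) = 1}
      add_mem' := by
        rintro a b ⟨ha, ha1⟩ ⟨hb, hb1⟩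
        refine ⟨Submodule.add_mem _ ha hb, fun r => ?_⟩
        rw [smul_add, hfadd _ (Submodule.smul_mem _ _ ha) _ (Submodule.smul_mem _ _ hb), ha1, hb1,
          one_mul]
      zero_mem' := ⟨Submodule.zero_mem _, fun r => by rw [smul_zero, hf0]⟩
      smul_mem' := by
        rintro c x ⟨hx, hx1⟩
        refine ⟨Submodule.smul_mem _ _ hx, fun r => ?_⟩
        rw [smul_smul]
        exact hx1 _ }
  have hW : hh C P ≤ W := by
    refine lieSp_le ?_ ?_
    · rintro x ⟨ζ, hζ, h, rfl | rfl⟩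
      · refine ⟨Af_mem C P hζ h, fun r => ?_⟩
        have hr : r • ζ ∈ C.k := Submodule.smul_mem _ _ hζ
        rw [← Af_smul, Af_sh, hfs _ _ (Af_mem C P hr 0)]
        exact hΦ _ hr
      · refine ⟨Bf_mem C P hζ h, fun r => ?_⟩
        have hr : r • ζ ∈ C.k := Submodule.smul_mem _ _ hζ
        rw [← Bf_smul, Bf_sh, hfs _ _ (Bf_mem C P hr 0)]
        exact hΘ _ hr
    · rintro x ⟨hx, hx1⟩ y ⟨hy, hy1⟩
      refine ⟨hh_br C P hx hy, fun r => ?_⟩
      have e : r • (x * y - y * x) = (r • x) * y - y * (r • x) := by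
        rw [smul_mul_assoc, mul_smul_comm, smul_sub]
      rw [e]
      exact hfjj _ (Submodule.subset_span (Or.inl ⟨_, Submodule.smul_mem _ r hx, _, hy, rfl⟩))
  have hf1 : ∀ x ∈ hh C P, f x = 1 := by
    intro x hx
    have h := (hW hx).2 1
    rwa [one_smul] at h
  ext g
  congr 1
  obtain ⟨g, hg⟩ := g
  change χ ⟨g, hg⟩ = 1
  refine Subgroup.closure_induction (p := fun g hg => χ ⟨g, hg⟩ = 1) ?_ ?_ ?_ ?_ hg
  · rintro x ((⟨F, hF1, rfl⟩ | rfl) | rfl)
    · rw [← hf1 F hF1]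
      exact hf F hF1 _ rfl
    · exact hχγ
    · exact hs1
  · exact map_one χ
  · intro a b ha hb ha1 hb1
    have e : (⟨a * b, (GG C P).mul_mem ha hb⟩ : GG C P) = ⟨a, ha⟩ * ⟨b, hb⟩ := rfl
    rw [e, map_mul, ha1, hb1, one_mul]
  · intro a ha ha1
    have e : (⟨a⁻¹, (GG C P).inv_mem ha⟩ : GG C P) = (⟨a, ha⟩ : GG C P)⁻¹ := rfl
    rw [e, map_inv, ha1, inv_one]

end Run7.h929.NL
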