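import Pool.Agent.Run7.h664.NL.Iface

/-!
# Project NL: common lemmas for the pieces ADD and CHI
-/

set_option autoImplicit false

namespace Run7.h929.NL

open Finset Filter Topology Pool.Agent.TH91.RF Pool.Agent.TH91.NB Pool.Agent.TH91.LG Run7.h664.NL

variable {N d : ℕ}

theorem mF_smul {x : Mt N} (h : x ∈ (mF N).F 1) (t : ℝ) : t • x ∈ (mF N).F 1 := J1261.smul_mem h t

theorem E_add {x y : Mt N} (hx : x ∈ (mF N).F 1) (hy : y ∈ (mF N).F 1) (hxy : Commute x y) :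
    E (x + y) = E x * E y := by
  apply Units.ext
  rw [Units.val_mul, E_val hx, E_val hy, E_val (Submodule.add_mem _ hx hy)]
  exact IsNilpotent.exp_add_of_commute hxy ((mF N).nilp hx) ((mF N).nilp hy)

theorem E_zero : E (0 : Mt N) = 1 := by
  apply Units.ext
  rw [E_val (Submodule.zero_mem _), IsNilpotent.exp_zero, Units.val_one]

theorem E_neg {x : Mt N} (hx : x ∈ (mF N).F 1) : E (-x) = (E x)⁻¹ := by
  apply Units.ext
  rw [E_inv_val hx, E_val (Submodule.neg_mem _ hx)]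

theorem E_zsmul {x : Mt N} (hx : x ∈ (mF N).F 1) (n : ℤ) : E ((n : ℝ) • x) = E x ^ n := by
  apply Units.ext
  rw [E_val (mF_smul hx _)]
  have h := J1261.ue_zpow x hx n
  rw [← h]
  congr 2
  unfold E
  rw [dif_pos hx]

theorem E_nsmul {x : Mt N} (hx : x ∈ (mF N).F 1) (n : ℕ) : E ((n : ℝ) • x) = E x ^ n := by
  have h := E_zsmul hx (n : ℤ)
  rw [Int.cast_natCast, zpow_natCast] at h
  exact h

theorem E_conj (u : (Mt N)ˣ) {x : Mt N} (hx : x ∈ (mF N).F 1)
    (hc : (u : Mt N) * x * ((u⁻¹ : (Mt N)ˣ) : Mt N) ∈ (mF N).F 1) :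
    E ((u : Mt N) * x * ((u⁻¹ : (Mt N)ˣ) : Mt N)) = u * E x * u⁻¹ := by
  apply Units.ext
  rw [E_val hc, Units.val_mul, Units.val_mul, E_val hx]
  exact exp_conj (Units.mul_inv u) (Units.inv_mul u) ((mF N).nilp hx)

theorem E_mul_of {x y z : Mt N} (hx : x ∈ (mF N).F 1) (hy : y ∈ (mF N).F 1) (hz : z ∈ (mF N).F 1)
    (h : IsNilpotent.exp x * IsNilpotent.exp y = IsNilpotent.exp z) : E x * E y = E z := by
  apply Units.ext
  rw [Units.val_mul, E_val hx, E_val hy, E_val hz, h]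

theorem E_cont {T : Type*} [TopologicalSpace T] {φ : T → Mt N} (hφ : Continuous φ)
    (h : ∀ t, φ t ∈ (mF N).F 1) : Continuous fun t => E (φ t) := by
  rw [Units.continuous_iff]
  constructor
  · have e : (Units.val ∘ fun t => E (φ t)) = fun t => J887.Ex N (φ t) := by
      funext t
      rw [Function.comp_apply, E_val (h t), (mF N).exp_eq (h t)]
      rfl
    rw [e]
    exact J887.Ex_continuous.comp hφ
  · have e : (fun t => (((E (φ t))⁻¹ : (Mt N)ˣ) : Mt N)) = fun t => J887.Ex N (-(φ t)) := by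
      funext t
      rw [E_inv_val (h t), (mF N).exp_eq (Submodule.neg_mem _ (h t))]
      rfl
    rw [e]
    exact J887.Ex_continuous.comp hφ.neg

theorem lat_of {A : Type*} [Ring A] [Algebra ℚ A] [Algebra ℝ A] {K : ℕ} (Φ : Filt A K)
    (W : Submodule ℝ A) (h1 : ∀ x ∈ W, x ∈ Φ.F 1) (h2 : ∀ x ∈ W, ∀ y ∈ W, x * y - y * x ∈ W) :
    LieLat Φ W.toAddSubgroup :=
  ⟨h1, fun u hu v hv => rat_smul_mem W _ (h2 u hu v hv)⟩

theorem idl_of {A : Type*} [Ring A] [Algebra ℚ A] [Algebra ℝ A] (K : ℕ)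
    (W J : Submodule ℝ A) (h1 : J ≤ W) (h2 : ∀ x ∈ W, ∀ y ∈ J, x * y - y * x ∈ J) :
    LieIdl K W.toAddSubgroup J.toAddSubgroup :=
  ⟨h1, fun u hu v hv => rat_smul_mem J _ (h2 u hu v hv)⟩

/-- the exponential of a sequence is pointwise -/
theorem exp_apply {x : AF N d} (hx : IsNilpotent x) (p : ℤ × Fin d) :
    IsNilpotent.exp x p = IsNilpotent.exp (x p) :=
  IsNilpotent.map_exp hx (Pi.evalRingHom (fun _ : ℤ × Fin d => Mt N) p)

/-- a common degree bound -/
theorem exists_M (P : Fin d → Polynomial ℤ) : ∃ M : ℕ, 1 ≤ M ∧ ∀ i, (P i).natDegree ≤ M :=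
  ⟨max 1 (Finset.univ.sup fun i => (P i).natDegree), le_max_left _ _, fun i =>
    (Finset.le_sup (f := fun i => (P i).natDegree) (Finset.mem_univ i)).trans (le_max_right _ _)⟩

section el

variable (C : Core N) (P : Fin d → Polynomial ℤ)

/-- the exponential of an element of `𝔥` in the big group -/
noncomputable def eG (x : AF N d) (hx : x ∈ hh C P) : GG C P :=
  ⟨⟨fun p => E (x p), 0⟩, Subgroup.subset_closure (Or.inl (Or.inl ⟨x, hx, rfl⟩))⟩

/-- the constant sequence `γ` -/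
noncomputable def gG : GG C P :=
  ⟨⟨fun _ => E C.Mc, 0⟩, Subgroup.subset_closure (Or.inl (Or.inr rfl))⟩

/-- the shift -/
noncomputable def sG : GG C P :=
  ⟨⟨fun _ => 1, 1⟩, Subgroup.subset_closure (Or.inr rfl)⟩

theorem hh_br {x y : AF N d} (hx : x ∈ hh C P) (hy : y ∈ hh C P) : x * y - y * x ∈ hh C P :=
  lieSp_br _ hx hy

theorem hh_rat {x : AF N d} (hx : x ∈ hh C P) (q : ℚ) : q • x ∈ hh C P := rat_smul_mem _ q hx

theorem jj_le (HHP : S_HHP) : jj C P ≤ hh C P := by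
  obtain ⟨M, hM, hPM⟩ := exists_M P
  obtain ⟨-, -, hsh, -, -⟩ := HHP N d M C P hM hPM
  refine Submodule.span_le.2 ?_
  rintro x (⟨u, hu, v, hv, rfl⟩ | ⟨u, hu, rfl⟩)
  · exact hh_br C P hu hv
  · exact Submodule.sub_mem _ (hsh u hu 1) hu

end el

end Run7.h929.NL
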